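import Mathlib

/-!
# FK : rounding lemma (note 2869, (R)), uniform finite probability spaces

`I` index set of the independent choices, `Ω` the common finite space, `T i k` the loads.
-/

namespace Pool.Agent.H50.FK

open Finset Classical

variable {I Ω : Type} [Fintype I]

/-- Averaging over one coordinate. -/
theorem sum_coord (S : I → Finset Ω) (i : I) (G : (I → Ω) → ℝ) :
    ∑ x ∈ Fintype.piFinset S, ∑ y ∈ S i, G (Function.update x i y) =
      (S i).card * ∑ x ∈ Fintype.piFinset S, G x := by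
  have h1 : ((S i).card : ℝ) * ∑ x ∈ Fintype.piFinset S, G x =
      ∑ x ∈ Fintype.piFinset S, ∑ _y ∈ S i, G x := by
    rw [Finset.mul_sum]
    refine Finset.sum_congr rfl fun x _ => ?_
    rw [Finset.sum_const, nsmul_eq_mul]
  rw [h1, ← Finset.sum_product', ← Finset.sum_product']
  refine Finset.sum_nbij' (fun z => (Function.update z.1 i z.2, z.1 i))
    (fun z => (Function.update z.1 i z.2, z.1 i)) ?_ ?_ ?_ ?_ ?_
  · rintro ⟨x, y⟩ hz
    simp only [mem_product, Fintype.mem_piFinset] at hz ⊢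
    refine ⟨fun j => ?_, hz.1 i⟩
    by_cases hj : j = i
    · subst hj; simpa using hz.2
    · rw [Function.update_of_ne hj]; exact hz.1 j
  · rintro ⟨x, y⟩ hz
    simp only [mem_product, Fintype.mem_piFinset] at hz ⊢
    refine ⟨fun j => ?_, hz.1 i⟩
    by_cases hj : j = i
    · subst hj; simpa using hz.2
    · rw [Function.update_of_ne hj]; exact hz.1 j
  · rintro ⟨x, y⟩ _
    simp
  · rintro ⟨x, y⟩ _
    simp
  · rintro ⟨x, y⟩ _
    rfl

/-- Independence: `f` of the coordinate `i`, `g` of the others. -/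
theorem sum_indep (S : I → Finset Ω) (i : I) (f : Ω → ℝ) (g : (I → Ω) → ℝ)
    (hg : ∀ x y, g (Function.update x i y) = g x) :
    (S i).card * ∑ x ∈ Fintype.piFinset S, f (x i) * g x =
      (∑ y ∈ S i, f y) * ∑ x ∈ Fintype.piFinset S, g x := by
  rw [← sum_coord S i fun x => f (x i) * g x]
  rw [Finset.mul_sum]
  refine Finset.sum_congr rfl fun x _ => ?_
  rw [Finset.sum_mul]
  refine Finset.sum_congr rfl fun y _ => ?_
  rw [Function.update_self, hg]

/-- `(x + y)^n ≤ 2^n (x^n + y^n)` -/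
theorem add_pow_le' {x y : ℝ} (hx : 0 ≤ x) (hy : 0 ≤ y) (n : ℕ) :
    (x + y) ^ n ≤ 2 ^ n * (x ^ n + y ^ n) := by
  rcases le_total x y with h | h
  · calc (x + y) ^ n ≤ (2 * y) ^ n := pow_le_pow_left₀ (by linarith) (by linarith) n
      _ = 2 ^ n * y ^ n := mul_pow _ _ _
      _ ≤ 2 ^ n * (x ^ n + y ^ n) := by
          refine mul_le_mul_of_nonneg_left ?_ (by positivity)
          have := pow_nonneg hx n
          linarith
  · calc (x + y) ^ n ≤ (2 * x) ^ n := pow_le_pow_left₀ (by linarith) (by linarith) n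
      _ = 2 ^ n * x ^ n := mul_pow _ _ _
      _ ≤ 2 ^ n * (x ^ n + y ^ n) := by
          refine mul_le_mul_of_nonneg_left ?_ (by positivity)
          have := pow_nonneg hy n
          linarith

/-- `S^l ≤ c^l + S^(l+1)/c` -/
theorem pow_le_trunc {S c : ℝ} (hS : 0 ≤ S) (hc : 0 < c) (l : ℕ) :
    S ^ l ≤ c ^ l + S ^ (l + 1) / c := by
  rcases le_total S c with h | h
  · have h1 := pow_le_pow_left₀ hS h l
    have h2 : 0 ≤ S ^ (l + 1) / c := by positivity
    linarith
  · have h1 : S ^ l ≤ S ^ (l + 1) / c := by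
      rw [le_div_iff₀ hc, pow_succ]
      exact mul_le_mul_of_nonneg_left h (by positivity)
    have h2 : 0 ≤ c ^ l := by positivity
    linarith

/-- Rosenthal's inequality for sums of independent non-negative variables, uniform on `S i`. -/
theorem rosenthal (l : ℕ) (S : I → Finset Ω) (hS : ∀ i, (S i).Nonempty) (T : I → Ω → ℝ)
    (hT : ∀ i ω, 0 ≤ T i ω) {a : ℝ} (ha : ∑ i, (∑ ω ∈ S i, T i ω) / (S i).card ≤ a) :
    ∑ x ∈ Fintype.piFinset S, (∑ i, T i (x i)) ^ (l + 1) ≤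
      (∏ i, ((S i).card : ℝ)) * (2 ^ (l + 1) * (∑ i, (∑ ω ∈ S i, T i ω ^ (l + 1)) / (S i).card) +
        (2 ^ (l + 1) * a) ^ (l + 1)) := by
  set P := Fintype.piFinset S with hP
  set N : ℝ := ∏ i, ((S i).card : ℝ) with hN
  have hcard : ∀ i, (0 : ℝ) < (S i).card := fun i => by exact_mod_cast Finset.card_pos.mpr (hS i)
  have hNP : (P.card : ℝ) = N := by
    rw [hP, Fintype.card_piFinset, hN]
    push_cast
    rfl
  have hNpos : 0 < N := Finset.prod_pos fun i _ => hcard i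
  set Sm : (I → Ω) → ℝ := fun x => ∑ i, T i (x i) with hSm
  have hSm0 : ∀ x, 0 ≤ Sm x := fun x => Finset.sum_nonneg fun i _ => hT i (x i)
  set Si : I → (I → Ω) → ℝ := fun i x => ∑ j ∈ univ.erase i, T j (x j) with hSi
  have hSi0 : ∀ i x, 0 ≤ Si i x := fun i x => Finset.sum_nonneg fun j _ => hT j (x j)
  have hsplit : ∀ i x, Sm x = T i (x i) + Si i x := by
    intro i x
    exact (Finset.add_sum_erase univ (fun j => T j (x j)) (Finset.mem_univ i)).symm
  have ha0 : 0 ≤ a := le_trans (Finset.sum_nonneg fun i _ =>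
    div_nonneg (Finset.sum_nonneg fun ω _ => hT i ω) (hcard i).le) ha
  -- the moments
  set E1 : ℝ := ∑ x ∈ P, Sm x ^ (l + 1) with hE1
  set E0 : ℝ := ∑ x ∈ P, Sm x ^ l with hE0
  have hE00 : 0 ≤ E0 := Finset.sum_nonneg fun x _ => pow_nonneg (hSm0 x) _
  have hE10 : 0 ≤ E1 := Finset.sum_nonneg fun x _ => pow_nonneg (hSm0 x) _
  -- one coordinate
  have hone : ∀ i, ∑ x ∈ P, T i (x i) * Sm x ^ l ≤
      2 ^ l * ((∑ ω ∈ S i, T i ω ^ (l + 1)) / (S i).card * N +
        (∑ ω ∈ S i, T i ω) / (S i).card * E0) := by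
    intro i
    have h1 : ∀ x ∈ P, T i (x i) * Sm x ^ l ≤
        2 ^ l * (T i (x i) ^ (l + 1) * 1 + T i (x i) * Si i x ^ l) := by
      intro x _
      have h2 := add_pow_le' (hT i (x i)) (hSi0 i x) l
      rw [← hsplit] at h2
      calc T i (x i) * Sm x ^ l ≤ T i (x i) * (2 ^ l * (T i (x i) ^ l + Si i x ^ l)) :=
            mul_le_mul_of_nonneg_left h2 (hT i _)
        _ = 2 ^ l * (T i (x i) ^ (l + 1) * 1 + T i (x i) * Si i x ^ l) := by ring
    have h3 := Finset.sum_le_sum h1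
    rw [← Finset.mul_sum, Finset.sum_add_distrib] at h3
    refine h3.trans (mul_le_mul_of_nonneg_left ?_ (by positivity))
    have h4 := sum_indep S i (fun ω => T i ω ^ (l + 1)) (fun _ => (1 : ℝ)) (fun _ _ => rfl)
    have h5 := sum_indep S i (T i) (fun x => Si i x ^ l) (by
      intro x y
      simp only [hSi]
      congr 1
      refine Finset.sum_congr rfl fun j hj => ?_
      rw [Function.update_of_ne (Finset.ne_of_mem_erase hj)])
    rw [Finset.sum_const, nsmul_eq_mul, mul_one, ← hP, hNP] at h4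
    rw [← hP] at h5
    have h6 : ∑ x ∈ P, Si i x ^ l ≤ E0 := by
      rw [hE0]
      refine Finset.sum_le_sum fun x _ => pow_le_pow_left₀ (hSi0 i x) ?_ l
      rw [hsplit i x]
      have := hT i (x i)
      linarith
    have h7 : 0 ≤ ∑ y ∈ S i, T i y := Finset.sum_nonneg fun ω _ => hT i ω
    have h8 : ∑ x ∈ P, T i (x i) ^ (l + 1) * 1 = (∑ ω ∈ S i, T i ω ^ (l + 1)) / (S i).card * N := by
      rw [div_mul_eq_mul_div, eq_div_iff (hcard i).ne']
      linarith
    have h9 : ∑ x ∈ P, T i (x i) * Si i x ^ l ≤ (∑ ω ∈ S i, T i ω) / (S i).card * E0 := by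
      rw [div_mul_eq_mul_div, le_div_iff₀ (hcard i)]
      have := mul_le_mul_of_nonneg_left h6 h7
      linarith
    rw [h8]
    linarith
  set b : ℝ := ∑ i, (∑ ω ∈ S i, T i ω ^ (l + 1)) / (S i).card with hb
  have hb0 : 0 ≤ b := Finset.sum_nonneg fun i _ =>
    div_nonneg (Finset.sum_nonneg fun ω _ => pow_nonneg (hT i ω) _) (hcard i).le
  have hE : E1 ≤ 2 ^ l * (b * N + a * E0) := by
    have h1 : E1 = ∑ i, ∑ x ∈ P, T i (x i) * Sm x ^ l := by
      rw [Finset.sum_comm, hE1]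
      refine Finset.sum_congr rfl fun x _ => ?_
      rw [← Finset.sum_mul, pow_succ, mul_comm]
    rw [h1]
    refine (Finset.sum_le_sum fun i _ => hone i).trans ?_
    rw [← Finset.mul_sum, Finset.sum_add_distrib, ← Finset.sum_mul, ← Finset.sum_mul]
    refine mul_le_mul_of_nonneg_left ?_ (by positivity)
    have := mul_le_mul_of_nonneg_right ha hE00
    linarith
  rcases ha0.eq_or_lt with ha1 | ha1
  · rw [← ha1] at hE ⊢
    rw [zero_mul, add_zero] at hE
    rw [mul_zero, zero_pow (Nat.succ_ne_zero l), add_zero]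
    refine hE.trans ?_
    have h2 : (2 : ℝ) ^ l ≤ 2 ^ (l + 1) := by
      rw [pow_succ]
      have : (0 : ℝ) < 2 ^ l := by positivity
      linarith
    have h3 : 0 ≤ b * N := by positivity
    calc 2 ^ l * (b * N) ≤ 2 ^ (l + 1) * (b * N) := mul_le_mul_of_nonneg_right h2 h3
      _ = N * (2 ^ (l + 1) * b) := by ring
  · set c : ℝ := 2 ^ (l + 1) * a with hc
    have hcpos : 0 < c := by positivity
    have h1 : E0 ≤ N * c ^ l + E1 / c := by
      have h2 : ∀ x ∈ P, Sm x ^ l ≤ c ^ l + Sm x ^ (l + 1) / c := fun x _ =>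
        pow_le_trunc (hSm0 x) hcpos l
      have h3 := Finset.sum_le_sum h2
      rw [Finset.sum_add_distrib, Finset.sum_const, nsmul_eq_mul, ← Finset.sum_div, hNP] at h3
      exact h3
    have h2 : 2 ^ l * (a * E0) ≤ N * (c ^ (l + 1) / 2) + E1 / 2 := by
      have h3 : 2 ^ l * a = c / 2 := by rw [hc, pow_succ]; ring
      calc 2 ^ l * (a * E0) = (c / 2) * E0 := by rw [← mul_assoc, h3]
        _ ≤ (c / 2) * (N * c ^ l + E1 / c) := mul_le_mul_of_nonneg_left h1 (by positivity)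
        _ = N * (c ^ (l + 1) / 2) + E1 / 2 := by
            rw [pow_succ]
            field_simp
    have h4 : E1 ≤ 2 * (2 ^ l * (b * N)) + N * c ^ (l + 1) := by
      have : 2 ^ l * (b * N + a * E0) = 2 ^ l * (b * N) + 2 ^ l * (a * E0) := by ring
      rw [this] at hE
      linarith
    refine h4.trans (le_of_eq ?_)
    rw [pow_succ (2 : ℝ) l]
    ring

/-- Markov: at least `5/8` of the outcomes satisfy three bounds `Z ≤ 8 z`. -/
theorem good_card [Fintype Ω] (Z : Fin 3 → Ω → ℝ) (hZ : ∀ r ω, 0 ≤ Z r ω) (z : Fin 3 → ℝ)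
    (hz : ∀ r, ∑ ω, Z r ω ≤ z r * Fintype.card Ω) :
    5 / 8 * (Fintype.card Ω : ℝ) ≤ ((univ : Finset Ω).filter fun ω => ∀ r, Z r ω ≤ 8 * z r).card := by
  have h1 : ∀ r, (((univ : Finset Ω).filter fun ω => ¬ Z r ω ≤ 8 * z r).card : ℝ) ≤
      1 / 8 * Fintype.card Ω := by
    intro r
    set B := (univ : Finset Ω).filter fun ω => ¬ Z r ω ≤ 8 * z r with hB
    have h2 : ∑ ω ∈ B, Z r ω ≤ z r * Fintype.card Ω :=
      (Finset.sum_le_sum_of_subset_of_nonneg (Finset.subset_univ _) fun ω _ _ => hZ r ω).trans (hz r)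
    rcases B.eq_empty_or_nonempty with he | hne
    · rw [he]; simp
    · obtain ⟨ω0, hω0⟩ := hne
      have hz0 : 0 ≤ z r := by
        have hΩ : (0 : ℝ) < Fintype.card Ω := by
          exact_mod_cast Fintype.card_pos_iff.mpr ⟨ω0⟩
        by_contra hcon
        push Not at hcon
        have := mul_neg_of_neg_of_pos hcon hΩ
        have := Finset.sum_nonneg (s := B) fun ω _ => hZ r ω
        linarith
      have h3 : (B.card : ℝ) * (8 * z r) ≤ ∑ ω ∈ B, Z r ω := by
        rw [← nsmul_eq_mul, ← Finset.sum_const]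
        refine Finset.sum_le_sum fun ω hω => ?_
        rw [hB, Finset.mem_filter] at hω
        push Not at hω
        exact hω.2.le
      rcases hz0.eq_or_lt with h0 | h0
      · exfalso
        rw [← h0, zero_mul] at h2
        have h4 : Z r ω0 ≤ ∑ ω ∈ B, Z r ω := Finset.single_le_sum (fun ω _ => hZ r ω) hω0
        rw [hB, Finset.mem_filter] at hω0
        have h5 := hω0.2
        rw [← h0] at h5
        push Not at h5
        linarith
      · have h4 : (B.card : ℝ) * (8 * z r) ≤ z r * Fintype.card Ω := h3.trans h2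
        have h5 : z r * (8 * (B.card : ℝ)) ≤ z r * Fintype.card Ω := by linarith
        have := le_of_mul_le_mul_left h5 h0
        linarith
  have h2 : (univ : Finset Ω) ⊆ ((univ : Finset Ω).filter fun ω => ∀ r, Z r ω ≤ 8 * z r) ∪
      (univ : Finset (Fin 3)).biUnion fun r => (univ : Finset Ω).filter fun ω => ¬ Z r ω ≤ 8 * z r := by
    intro ω _
    rw [Finset.mem_union, Finset.mem_biUnion]
    by_cases h : ∀ r, Z r ω ≤ 8 * z r
    · left; simpa using h
    · right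
      push Not at h
      obtain ⟨r, hr⟩ := h
      exact ⟨r, Finset.mem_univ _, by simpa using hr⟩
  have h3 := (Finset.card_le_card h2).trans (Finset.card_union_le _ _)
  have h4 := h3.trans (Nat.add_le_add_left Finset.card_biUnion_le _)
  have h5 : (Fintype.card Ω : ℝ) ≤
      ((univ : Finset Ω).filter fun ω => ∀ r, Z r ω ≤ 8 * z r).card +
        ∑ r, (((univ : Finset Ω).filter fun ω => ¬ Z r ω ≤ 8 * z r).card : ℝ) := by
    rw [Finset.card_univ] at h4
    exact_mod_cast h4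
  have h6 : ∑ r : Fin 3, (((univ : Finset Ω).filter fun ω => ¬ Z r ω ≤ 8 * z r).card : ℝ) ≤
      3 / 8 * Fintype.card Ω := by
    refine (Finset.sum_le_sum fun r _ => h1 r).trans ?_
    rw [Finset.sum_const, Finset.card_univ, Fintype.card_fin, nsmul_eq_mul]
    push_cast
    linarith
  linarith

/-- The rounding lemma. -/
theorem rounding [Fintype Ω] [Nonempty Ω] {K : Type} [Fintype K] (l : ℕ) (T : I → K → Ω → ℝ)
    (hT : ∀ i k ω, 0 ≤ T i k ω) (a : K → ℝ)
    (ha : ∀ k, ∑ i, (∑ ω, T i k ω) / Fintype.card Ω ≤ a k)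
    (Z : I → Fin 3 → Ω → ℝ) (hZ : ∀ i r ω, 0 ≤ Z i r ω) (z : I → Fin 3 → ℝ)
    (hz : ∀ i r, (∑ ω, Z i r ω) / Fintype.card Ω ≤ z i r) (β : I → ℝ)
    (hβ : ∀ i ω, (∀ r, Z i r ω ≤ 8 * z i r) → ∑ k, T i k ω ^ (l + 1) ≤ β i) :
    ∃ x : I → Ω, (∀ i r, Z i r (x i) ≤ 8 * z i r) ∧
      ∑ k, (∑ i, T i k (x i)) ^ (l + 1) ≤
        2 ^ ((l + 2) * (l + 1)) * (∑ k, a k ^ (l + 1) + ∑ i, β i) := by
  have hΩ : (0 : ℝ) < Fintype.card Ω := by exact_mod_cast Fintype.card_pos
  set S : I → Finset Ω := fun i => (univ : Finset Ω).filter fun ω => ∀ r, Z i r ω ≤ 8 * z i r with hS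
  have hSc : ∀ i, 5 / 8 * (Fintype.card Ω : ℝ) ≤ ((S i).card : ℝ) := fun i =>
    good_card (Z i) (hZ i) (z i) fun r => by
      have := hz i r
      rwa [div_le_iff₀ hΩ] at this
  have hSpos : ∀ i, (0 : ℝ) < (S i).card := fun i => lt_of_lt_of_le (by positivity) (hSc i)
  have hSne : ∀ i, (S i).Nonempty := fun i => by
    rw [← Finset.card_pos]
    exact_mod_cast hSpos i
  have hmean : ∀ i k, (∑ ω ∈ S i, T i k ω) / (S i).card ≤ 8 / 5 * ((∑ ω, T i k ω) / Fintype.card Ω) := by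
    intro i k
    have h1 : ∑ ω ∈ S i, T i k ω ≤ ∑ ω, T i k ω :=
      Finset.sum_le_sum_of_subset_of_nonneg (Finset.subset_univ _) fun ω _ _ => hT i k ω
    have h0 : 0 ≤ ∑ ω, T i k ω := Finset.sum_nonneg fun ω _ => hT i k ω
    rw [div_le_iff₀ (hSpos i)]
    calc ∑ ω ∈ S i, T i k ω ≤ ∑ ω, T i k ω := h1
      _ = 8 / 5 * ((∑ ω, T i k ω) / Fintype.card Ω) * (5 / 8 * Fintype.card Ω) := by
          field_simp
      _ ≤ 8 / 5 * ((∑ ω, T i k ω) / Fintype.card Ω) * (S i).card :=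
          mul_le_mul_of_nonneg_left (hSc i) (by positivity)
  have ha0 : ∀ k, 0 ≤ a k := fun k => le_trans (Finset.sum_nonneg fun i _ =>
    div_nonneg (Finset.sum_nonneg fun ω _ => hT i k ω) hΩ.le) (ha k)
  have hros : ∀ k, ∑ x ∈ Fintype.piFinset S, (∑ i, T i k (x i)) ^ (l + 1) ≤
      (∏ i, ((S i).card : ℝ)) * (2 ^ (l + 1) * (∑ i, (∑ ω ∈ S i, T i k ω ^ (l + 1)) / (S i).card) +
        (2 ^ (l + 1) * (8 / 5 * a k)) ^ (l + 1)) := by
    intro k
    refine rosenthal l S hSne (fun i => T i k) (fun i ω => hT i k ω) ?_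
    refine (Finset.sum_le_sum fun i _ => hmean i k).trans ?_
    rw [← Finset.mul_sum]
    exact mul_le_mul_of_nonneg_left (ha k) (by norm_num)
  set P := Fintype.piFinset S with hP
  have hPne : P.Nonempty := Fintype.piFinset_nonempty.mpr hSne
  set N : ℝ := ∏ i, ((S i).card : ℝ) with hN
  have hNP : (P.card : ℝ) = N := by
    rw [hP, Fintype.card_piFinset, hN]
    push_cast
    rfl
  have hNpos : 0 < N := Finset.prod_pos fun i _ => hSpos i
  have hβ0 : ∑ i, (∑ k, ∑ ω ∈ S i, T i k ω ^ (l + 1)) / (S i).card ≤ ∑ i, β i := by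
    refine Finset.sum_le_sum fun i _ => ?_
    rw [div_le_iff₀ (hSpos i), Finset.sum_comm]
    calc ∑ ω ∈ S i, ∑ k, T i k ω ^ (l + 1) ≤ ∑ _ω ∈ S i, β i := by
          refine Finset.sum_le_sum fun ω hω => hβ i ω ?_
          rw [hS, Finset.mem_filter] at hω
          exact hω.2
      _ = β i * (S i).card := by rw [Finset.sum_const, nsmul_eq_mul, mul_comm]
  have htot : ∑ x ∈ P, ∑ k, (∑ i, T i k (x i)) ^ (l + 1) ≤
      N * (2 ^ ((l + 2) * (l + 1)) * (∑ k, a k ^ (l + 1) + ∑ i, β i)) := by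
    rw [Finset.sum_comm]
    refine (Finset.sum_le_sum fun k _ => hros k).trans ?_
    rw [← Finset.mul_sum, Finset.sum_add_distrib, ← Finset.mul_sum]
    refine mul_le_mul_of_nonneg_left ?_ hNpos.le
    have h1 : ∑ k, ∑ i, (∑ ω ∈ S i, T i k ω ^ (l + 1)) / (S i).card ≤ ∑ i, β i := by
      rw [Finset.sum_comm]
      refine le_trans (le_of_eq (Finset.sum_congr rfl fun i _ => ?_)) hβ0
      rw [Finset.sum_div]
    have hβs : 0 ≤ ∑ i, β i := le_trans (Finset.sum_nonneg fun i _ => div_nonneg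
      (Finset.sum_nonneg fun k _ => Finset.sum_nonneg fun ω _ => pow_nonneg (hT i k ω) _)
      (hSpos i).le) hβ0
    have h2 : ∀ k, (2 ^ (l + 1) * (8 / 5 * a k)) ^ (l + 1) ≤ 2 ^ ((l + 2) * (l + 1)) * a k ^ (l + 1) := by
      intro k
      have h3 : 2 ^ (l + 1) * (8 / 5 * a k) ≤ 2 ^ (l + 2) * a k := by
        rw [pow_succ (2 : ℝ) (l + 1)]
        have := mul_le_mul_of_nonneg_left (show (8 / 5 : ℝ) * a k ≤ 2 * a k by
          have := ha0 k; linarith) (show (0 : ℝ) ≤ 2 ^ (l + 1) by positivity)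
        linarith
      calc (2 ^ (l + 1) * (8 / 5 * a k)) ^ (l + 1) ≤ (2 ^ (l + 2) * a k) ^ (l + 1) :=
            pow_le_pow_left₀ (by have := ha0 k; positivity) h3 _
        _ = 2 ^ ((l + 2) * (l + 1)) * a k ^ (l + 1) := by rw [mul_pow, ← pow_mul]
    have h4 : ∑ k, (2 ^ (l + 1) * (8 / 5 * a k)) ^ (l + 1) ≤
        2 ^ ((l + 2) * (l + 1)) * ∑ k, a k ^ (l + 1) := by
      rw [Finset.mul_sum]
      exact Finset.sum_le_sum fun k _ => h2 k
    have h5 : (2 : ℝ) ^ (l + 1) ≤ 2 ^ ((l + 2) * (l + 1)) := by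
      refine pow_le_pow_right₀ (by norm_num) ?_
      nlinarith
    have h6 : 2 ^ (l + 1) * ∑ k, ∑ i, (∑ ω ∈ S i, T i k ω ^ (l + 1)) / (S i).card ≤
        2 ^ ((l + 2) * (l + 1)) * ∑ i, β i := by
      calc 2 ^ (l + 1) * ∑ k, ∑ i, (∑ ω ∈ S i, T i k ω ^ (l + 1)) / (S i).card
          ≤ 2 ^ (l + 1) * ∑ i, β i := mul_le_mul_of_nonneg_left h1 (by positivity)
        _ ≤ 2 ^ ((l + 2) * (l + 1)) * ∑ i, β i := mul_le_mul_of_nonneg_right h5 hβs
    rw [mul_add]
    linarith
  have hex : ∃ x ∈ P, ∑ k, (∑ i, T i k (x i)) ^ (l + 1) ≤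
      2 ^ ((l + 2) * (l + 1)) * (∑ k, a k ^ (l + 1) + ∑ i, β i) := by
    by_contra hcon
    push Not at hcon
    have h1 := Finset.sum_lt_sum_of_nonempty hPne hcon
    rw [Finset.sum_const, nsmul_eq_mul, hNP] at h1
    linarith
  obtain ⟨x, hx, hx2⟩ := hex
  refine ⟨x, fun i => ?_, hx2⟩
  rw [hP, Fintype.mem_piFinset] at hx
  have := hx i
  rw [hS, Finset.mem_filter] at this
  exact this.2

end Pool.Agent.H50.FK
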