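import Pool.Agent.H69.FK.Basic
import Pool.Agent.H50.FK.Round

/-!
# FK : rounding lemma for finite weighted probability spaces
-/

namespace Pool.Agent.H50.FK

open Finset Classical
open Pool.Agent.H69.FK (FP)

variable {I Ω : Type} [Fintype I]

/-- Averaging over one coordinate, weighted. -/
theorem wsum_coord (S : I → Finset Ω) (p : I → Ω → ℝ) (i : I) (G : (I → Ω) → ℝ) :
    ∑ x ∈ Fintype.piFinset S, ∑ y ∈ S i,
        (∏ j, p j (x j)) * (p i y * G (Function.update x i y)) =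
      (∑ y ∈ S i, p i y) * ∑ x ∈ Fintype.piFinset S, (∏ j, p j (x j)) * G x := by
  have h1 : (∑ y ∈ S i, p i y) * ∑ x ∈ Fintype.piFinset S, (∏ j, p j (x j)) * G x =
      ∑ x ∈ Fintype.piFinset S, ∑ y ∈ S i, p i y * ((∏ j, p j (x j)) * G x) := by
    rw [Finset.sum_mul_sum, Finset.sum_comm]
  rw [h1, ← Finset.sum_product', ← Finset.sum_product']
  refine Finset.sum_nbij' (fun z => (Function.update z.1 i z.2, z.1 i))
    (fun z => (Function.update z.1 i z.2, z.1 i)) ?_ ?_ ?_ ?_ ?_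
  · rintro ⟨x, y⟩ hz
    simp only [mem_product, Fintype.mem_piFinset] at hz ⊢
    refine ⟨fun j => ?_, hz.1 i⟩
    by_cases hj : j = i
    · subst hj; simpa using hz.2
    · rw [Function.update_of_ne hj]; exact hz.1 j
  · rintro ⟨x, y⟩ hz
    simp only [mem_product, Fintype.mem_piFinset] at hz ⊢
    refine ⟨fun j => ?_, hz.1 i⟩
    by_cases hj : j = i
    · subst hj; simpa using hz.2
    · rw [Function.update_of_ne hj]; exact hz.1 j
  · rintro ⟨x, y⟩ _
    simp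
  · rintro ⟨x, y⟩ _
    simp
  · rintro ⟨x, y⟩ _
    simp only
    have h2 : (∏ j, p j (Function.update x i y j)) * p i (x i) = (∏ j, p j (x j)) * p i y := by
      rw [← Finset.mul_prod_erase univ (fun j => p j (Function.update x i y j)) (Finset.mem_univ i),
        ← Finset.mul_prod_erase univ (fun j => p j (x j)) (Finset.mem_univ i), Function.update_self]
      have h3 : ∏ j ∈ univ.erase i, p j (Function.update x i y j) =
          ∏ j ∈ univ.erase i, p j (x j) := by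
        refine Finset.prod_congr rfl fun j hj => ?_
        rw [Function.update_of_ne (Finset.ne_of_mem_erase hj)]
      rw [h3]
      ring
    calc (∏ j, p j (x j)) * (p i y * G (Function.update x i y))
        = ((∏ j, p j (x j)) * p i y) * G (Function.update x i y) := by ring
      _ = ((∏ j, p j (Function.update x i y j)) * p i (x i)) * G (Function.update x i y) := by
          rw [h2]
      _ = p i (x i) * ((∏ j, p j (Function.update x i y j)) * G (Function.update x i y)) := by ring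

theorem wsum_indep (S : I → Finset Ω) (p : I → Ω → ℝ) (i : I) (f : Ω → ℝ) (g : (I → Ω) → ℝ)
    (hg : ∀ x y, g (Function.update x i y) = g x) :
    (∑ y ∈ S i, p i y) * ∑ x ∈ Fintype.piFinset S, (∏ j, p j (x j)) * (f (x i) * g x) =
      (∑ y ∈ S i, p i y * f y) * ∑ x ∈ Fintype.piFinset S, (∏ j, p j (x j)) * g x := by
  rw [← wsum_coord S p i fun x => f (x i) * g x]
  rw [Finset.mul_sum]
  refine Finset.sum_congr rfl fun x _ => ?_
  rw [Finset.sum_mul]
  refine Finset.sum_congr rfl fun y _ => ?_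
  rw [Function.update_self, hg]
  ring

/-- Rosenthal's inequality, weighted (masses `m i > 0`, not normalised). -/
theorem wrosenthal (l : ℕ) (S : I → Finset Ω) (p : I → Ω → ℝ) (hp : ∀ i ω, 0 ≤ p i ω)
    (m : I → ℝ) (hm : ∀ i, ∑ ω ∈ S i, p i ω = m i) (hmp : ∀ i, 0 < m i) (T : I → Ω → ℝ)
    (hT : ∀ i ω, 0 ≤ T i ω) {a : ℝ} (ha : ∑ i, (∑ ω ∈ S i, p i ω * T i ω) / m i ≤ a) :
    ∑ x ∈ Fintype.piFinset S, (∏ j, p j (x j)) * (∑ i, T i (x i)) ^ (l + 1) ≤
      (∏ i, m i) * (2 ^ (l + 1) * (∑ i, (∑ ω ∈ S i, p i ω * T i ω ^ (l + 1)) / m i) +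
        (2 ^ (l + 1) * a) ^ (l + 1)) := by
  set P := Fintype.piFinset S with hP
  set N : ℝ := ∏ i, m i with hN
  set w : (I → Ω) → ℝ := fun x => ∏ j, p j (x j) with hw
  have hw0 : ∀ x, 0 ≤ w x := fun x => Finset.prod_nonneg fun j _ => hp j _
  have hNP : ∑ x ∈ P, w x = N := by
    rw [hP, hN, hw, ← Finset.prod_univ_sum]
    exact Finset.prod_congr rfl fun i _ => hm i
  have hNpos : 0 < N := Finset.prod_pos fun i _ => hmp i
  set Sm : (I → Ω) → ℝ := fun x => ∑ i, T i (x i) with hSm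
  have hSm0 : ∀ x, 0 ≤ Sm x := fun x => Finset.sum_nonneg fun i _ => hT i (x i)
  set Si : I → (I → Ω) → ℝ := fun i x => ∑ j ∈ univ.erase i, T j (x j) with hSi
  have hSi0 : ∀ i x, 0 ≤ Si i x := fun i x => Finset.sum_nonneg fun j _ => hT j (x j)
  have hsplit : ∀ i x, Sm x = T i (x i) + Si i x := by
    intro i x
    exact (Finset.add_sum_erase univ (fun j => T j (x j)) (Finset.mem_univ i)).symm
  have hm0 : ∀ i (f : Ω → ℝ), (∀ ω, 0 ≤ f ω) → 0 ≤ (∑ ω ∈ S i, p i ω * f ω) / m i :=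
    fun i f hf => div_nonneg (Finset.sum_nonneg fun ω _ => mul_nonneg (hp i ω) (hf ω)) (hmp i).le
  have ha0 : 0 ≤ a := le_trans (Finset.sum_nonneg fun i _ => hm0 i _ (hT i)) ha
  set E1 : ℝ := ∑ x ∈ P, w x * Sm x ^ (l + 1) with hE1
  set E0 : ℝ := ∑ x ∈ P, w x * Sm x ^ l with hE0
  have hE00 : 0 ≤ E0 := Finset.sum_nonneg fun x _ => mul_nonneg (hw0 x) (pow_nonneg (hSm0 x) _)
  have hE10 : 0 ≤ E1 := Finset.sum_nonneg fun x _ => mul_nonneg (hw0 x) (pow_nonneg (hSm0 x) _)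
  have hone : ∀ i, ∑ x ∈ P, w x * (T i (x i) * Sm x ^ l) ≤
      2 ^ l * ((∑ ω ∈ S i, p i ω * T i ω ^ (l + 1)) / m i * N +
        (∑ ω ∈ S i, p i ω * T i ω) / m i * E0) := by
    intro i
    have h1 : ∀ x ∈ P, w x * (T i (x i) * Sm x ^ l) ≤
        2 ^ l * (w x * (T i (x i) ^ (l + 1) * 1) + w x * (T i (x i) * Si i x ^ l)) := by
      intro x _
      have h2 := add_pow_le' (hT i (x i)) (hSi0 i x) l
      rw [← hsplit] at h2
      calc w x * (T i (x i) * Sm x ^ l)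
          ≤ w x * (T i (x i) * (2 ^ l * (T i (x i) ^ l + Si i x ^ l))) :=
            mul_le_mul_of_nonneg_left (mul_le_mul_of_nonneg_left h2 (hT i _)) (hw0 x)
        _ = 2 ^ l * (w x * (T i (x i) ^ (l + 1) * 1) + w x * (T i (x i) * Si i x ^ l)) := by ring
    have h3 := Finset.sum_le_sum h1
    rw [← Finset.mul_sum, Finset.sum_add_distrib] at h3
    refine h3.trans (mul_le_mul_of_nonneg_left ?_ (by positivity))
    have h4 := wsum_indep S p i (fun ω => T i ω ^ (l + 1)) (fun _ => (1 : ℝ)) (fun _ _ => rfl)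
    have h5 := wsum_indep S p i (T i) (fun x => Si i x ^ l) (by
      intro x y
      simp only [hSi]
      congr 1
      refine Finset.sum_congr rfl fun j hj => ?_
      rw [Function.update_of_ne (Finset.ne_of_mem_erase hj)])
    rw [hm i] at h4 h5
    have h4' : m i * ∑ x ∈ P, w x * (T i (x i) ^ (l + 1) * 1) =
        (∑ ω ∈ S i, p i ω * T i ω ^ (l + 1)) * N := by
      rw [h4]
      congr 1
      rw [← hNP]
      exact Finset.sum_congr rfl fun x _ => mul_one _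
    have h6 : ∑ x ∈ P, w x * Si i x ^ l ≤ E0 := by
      rw [hE0]
      refine Finset.sum_le_sum fun x _ => mul_le_mul_of_nonneg_left
        (pow_le_pow_left₀ (hSi0 i x) ?_ l) (hw0 x)
      rw [hsplit i x]
      have := hT i (x i)
      linarith
    have h7 : 0 ≤ ∑ y ∈ S i, p i y * T i y :=
      Finset.sum_nonneg fun ω _ => mul_nonneg (hp i ω) (hT i ω)
    have h8 : ∑ x ∈ P, w x * (T i (x i) ^ (l + 1) * 1) =
        (∑ ω ∈ S i, p i ω * T i ω ^ (l + 1)) / m i * N := by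
      rw [div_mul_eq_mul_div, eq_div_iff (hmp i).ne', mul_comm]
      exact h4'
    have h9 : ∑ x ∈ P, w x * (T i (x i) * Si i x ^ l) ≤
        (∑ ω ∈ S i, p i ω * T i ω) / m i * E0 := by
      rw [div_mul_eq_mul_div, le_div_iff₀ (hmp i), mul_comm]
      have h10 := mul_le_mul_of_nonneg_left h6 h7
      exact le_trans (le_of_eq h5) h10
    rw [h8]
    linarith
  set b : ℝ := ∑ i, (∑ ω ∈ S i, p i ω * T i ω ^ (l + 1)) / m i with hb
  have hb0 : 0 ≤ b := Finset.sum_nonneg fun i _ => hm0 i _ fun ω => pow_nonneg (hT i ω) _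
  have hE : E1 ≤ 2 ^ l * (b * N + a * E0) := by
    have h1 : E1 = ∑ i, ∑ x ∈ P, w x * (T i (x i) * Sm x ^ l) := by
      rw [Finset.sum_comm, hE1]
      refine Finset.sum_congr rfl fun x _ => ?_
      rw [← Finset.mul_sum, ← Finset.sum_mul, pow_succ]
      ring
    rw [h1]
    refine (Finset.sum_le_sum fun i _ => hone i).trans ?_
    rw [← Finset.mul_sum, Finset.sum_add_distrib, ← Finset.sum_mul, ← Finset.sum_mul]
    refine mul_le_mul_of_nonneg_left ?_ (by positivity)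
    have := mul_le_mul_of_nonneg_right ha hE00
    linarith
  rcases ha0.eq_or_lt with ha1 | ha1
  · rw [← ha1] at hE ⊢
    rw [zero_mul, add_zero] at hE
    rw [mul_zero, zero_pow (Nat.succ_ne_zero l), add_zero]
    refine hE.trans ?_
    have h2 : (2 : ℝ) ^ l ≤ 2 ^ (l + 1) := by
      rw [pow_succ]
      have : (0 : ℝ) < 2 ^ l := by positivity
      linarith
    have h3 : 0 ≤ b * N := by positivity
    calc 2 ^ l * (b * N) ≤ 2 ^ (l + 1) * (b * N) := mul_le_mul_of_nonneg_right h2 h3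
      _ = N * (2 ^ (l + 1) * b) := by ring
  · set c : ℝ := 2 ^ (l + 1) * a with hc
    have hcpos : 0 < c := by positivity
    have h1 : E0 ≤ N * c ^ l + E1 / c := by
      have h2 : ∀ x ∈ P, w x * Sm x ^ l ≤ w x * c ^ l + w x * Sm x ^ (l + 1) / c := by
        intro x _
        have := mul_le_mul_of_nonneg_left (pow_le_trunc (hSm0 x) hcpos l) (hw0 x)
        rw [mul_add, mul_div_assoc'] at this
        exact this
      have h3 := Finset.sum_le_sum h2
      rw [Finset.sum_add_distrib, ← Finset.sum_mul, ← Finset.sum_div, hNP] at h3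
      exact h3
    have h2 : 2 ^ l * (a * E0) ≤ N * (c ^ (l + 1) / 2) + E1 / 2 := by
      have h3 : 2 ^ l * a = c / 2 := by rw [hc, pow_succ]; ring
      calc 2 ^ l * (a * E0) = (c / 2) * E0 := by rw [← mul_assoc, h3]
        _ ≤ (c / 2) * (N * c ^ l + E1 / c) := mul_le_mul_of_nonneg_left h1 (by positivity)
        _ = N * (c ^ (l + 1) / 2) + E1 / 2 := by
            rw [pow_succ]
            field_simp
    have h4 : E1 ≤ 2 * (2 ^ l * (b * N)) + N * c ^ (l + 1) := by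
      have : 2 ^ l * (b * N + a * E0) = 2 ^ l * (b * N) + 2 ^ l * (a * E0) := by ring
      rw [this] at hE
      linarith
    refine h4.trans (le_of_eq ?_)
    rw [pow_succ (2 : ℝ) l]
    ring

/-- Markov for a finite probability space. -/
theorem good_mass (μ : FP Ω) (Z : Fin 3 → Ω → ℝ) (hZ : ∀ r ω, 0 ≤ Z r ω) (z : Fin 3 → ℝ)
    (hz : ∀ r, μ.E (Z r) ≤ z r) :
    5 / 8 ≤ ∑ ω ∈ μ.S.filter (fun ω => ∀ r, Z r ω ≤ 8 * z r), μ.p ω := by
  have h1 : ∀ r, ∑ ω ∈ μ.S.filter (fun ω => ¬ Z r ω ≤ 8 * z r), μ.p ω ≤ 1 / 8 := by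
    intro r
    set B := μ.S.filter (fun ω => ¬ Z r ω ≤ 8 * z r) with hB
    have hE : ∑ ω ∈ B, μ.p ω * Z r ω ≤ z r :=
      (Finset.sum_le_sum_of_subset_of_nonneg (Finset.filter_subset _ _)
        fun ω _ _ => mul_nonneg (μ.nn ω) (hZ r ω)).trans (hz r)
    have hz0 : 0 ≤ z r := le_trans
      (Finset.sum_nonneg fun ω _ => mul_nonneg (μ.nn ω) (hZ r ω)) (hz r)
    have hb : ∀ ω ∈ B, 8 * z r < Z r ω := by
      intro ω hω
      rw [hB, Finset.mem_filter] at hω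
      exact not_le.mp hω.2
    rcases hz0.eq_or_lt with h0 | h0
    · have h2 : ∀ ω ∈ B, μ.p ω = 0 := by
        intro ω hω
        by_contra hne
        have hpos : 0 < μ.p ω := lt_of_le_of_ne (μ.nn ω) (Ne.symm hne)
        have h3 : 0 < Z r ω := by
          have := hb ω hω
          rw [← h0] at this
          linarith
        have h4 : μ.p ω * Z r ω ≤ ∑ ω ∈ B, μ.p ω * Z r ω :=
          Finset.single_le_sum (f := fun ω => μ.p ω * Z r ω)
            (fun ω _ => mul_nonneg (μ.nn ω) (hZ r ω)) hω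
        have := mul_pos hpos h3
        rw [← h0] at hE
        linarith
      rw [Finset.sum_eq_zero h2]
      norm_num
    · have h3 : (∑ ω ∈ B, μ.p ω) * (8 * z r) ≤ ∑ ω ∈ B, μ.p ω * Z r ω := by
        rw [Finset.sum_mul]
        exact Finset.sum_le_sum fun ω hω => mul_le_mul_of_nonneg_left (hb ω hω).le (μ.nn ω)
      have h4 : z r * (8 * ∑ ω ∈ B, μ.p ω) ≤ z r * 1 := by linarith
      have := le_of_mul_le_mul_left h4 h0
      linarith
  have h3 : ∑ ω ∈ μ.S, μ.p ω ≤ ∑ ω ∈ μ.S.filter (fun ω => ∀ r, Z r ω ≤ 8 * z r), μ.p ω +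
      ∑ r : Fin 3, ∑ ω ∈ μ.S.filter (fun ω => ¬ Z r ω ≤ 8 * z r), μ.p ω := by
    simp only [Finset.sum_filter]
    rw [Finset.sum_comm, ← Finset.sum_add_distrib]
    refine Finset.sum_le_sum fun ω _ => ?_
    have hnn : ∀ r : Fin 3, 0 ≤ (if ¬ Z r ω ≤ 8 * z r then μ.p ω else 0) := by
      intro r
      split_ifs
      · exact le_rfl
      · exact μ.nn ω
    by_cases h : ∀ r, Z r ω ≤ 8 * z r
    · rw [if_pos h]
      have := Finset.sum_nonneg (s := univ) fun r _ => hnn r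
      linarith
    · rw [if_neg h, zero_add]
      push Not at h
      obtain ⟨r, hr⟩ := h
      have h5 := Finset.single_le_sum (f := fun r : Fin 3 => if ¬ Z r ω ≤ 8 * z r then μ.p ω else 0)
        (fun r _ => hnn r) (Finset.mem_univ r)
      rw [if_pos (not_le.mpr hr)] at h5
      exact h5
  have h4 : ∑ r : Fin 3, ∑ ω ∈ μ.S.filter (fun ω => ¬ Z r ω ≤ 8 * z r), μ.p ω ≤ 3 / 8 := by
    refine (Finset.sum_le_sum fun r _ => h1 r).trans ?_
    rw [Finset.sum_const, Finset.card_univ, Fintype.card_fin, nsmul_eq_mul]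
    norm_num
  rw [μ.one] at h3
  linarith

/-- The rounding lemma, `Fintype` index set. -/
theorem wrounding (l : ℕ) {K : Type} (KK : Finset K) (μ : I → FP Ω) (T : I → K → Ω → ℝ)
    (Z : I → Fin 3 → Ω → ℝ) (a : K → ℝ) (z : I → Fin 3 → ℝ) (β : I → ℝ)
    (hT : ∀ i k ω, 0 ≤ T i k ω) (hZ : ∀ i r ω, 0 ≤ Z i r ω)
    (ha : ∀ k ∈ KK, ∑ i, (μ i).E (T i k) ≤ a k) (hz : ∀ i r, (μ i).E (Z i r) ≤ z i r)
    (hβ : ∀ i, ∀ ω ∈ (μ i).S, (∀ r, Z i r ω ≤ 8 * z i r) → ∑ k ∈ KK, T i k ω ^ (l + 1) ≤ β i) :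
    ∃ x : I → Ω, (∀ i, x i ∈ (μ i).S) ∧ (∀ i r, Z i r (x i) ≤ 8 * z i r) ∧
      ∑ k ∈ KK, (∑ i, T i k (x i)) ^ (l + 1) ≤
        2 ^ ((l + 2) * (l + 1)) * (∑ k ∈ KK, a k ^ (l + 1) + ∑ i, β i) := by
  set S : I → Finset Ω := fun i => (μ i).S.filter fun ω => ∀ r, Z i r ω ≤ 8 * z i r with hS
  set p : I → Ω → ℝ := fun i => (μ i).p with hp
  have hp0 : ∀ i ω, 0 ≤ p i ω := fun i => (μ i).nn
  set m : I → ℝ := fun i => ∑ ω ∈ S i, p i ω with hm
  have hm58 : ∀ i, 5 / 8 ≤ m i := fun i => good_mass (μ i) (Z i) (hZ i) (z i) (hz i)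
  have hmp : ∀ i, 0 < m i := fun i => lt_of_lt_of_le (by norm_num) (hm58 i)
  have hsub : ∀ i (f : Ω → ℝ), (∀ ω, 0 ≤ f ω) → ∑ ω ∈ S i, p i ω * f ω ≤ (μ i).E f := by
    intro i f hf
    exact Finset.sum_le_sum_of_subset_of_nonneg (Finset.filter_subset _ _)
      fun ω _ _ => mul_nonneg (hp0 i ω) (hf ω)
  have hEnn : ∀ i (f : Ω → ℝ), (∀ ω, 0 ≤ f ω) → 0 ≤ (μ i).E f := fun i f hf =>
    Finset.sum_nonneg fun ω _ => mul_nonneg (hp0 i ω) (hf ω)
  have hmean : ∀ i k, (∑ ω ∈ S i, p i ω * T i k ω) / m i ≤ 8 / 5 * (μ i).E (T i k) := by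
    intro i k
    rw [div_le_iff₀ (hmp i)]
    have h0 := hEnn i (T i k) (hT i k)
    calc ∑ ω ∈ S i, p i ω * T i k ω ≤ (μ i).E (T i k) := hsub i _ (hT i k)
      _ = 8 / 5 * (μ i).E (T i k) * (5 / 8) := by ring
      _ ≤ 8 / 5 * (μ i).E (T i k) * m i := mul_le_mul_of_nonneg_left (hm58 i) (by positivity)
  have ha0 : ∀ k ∈ KK, 0 ≤ a k := fun k hk => le_trans (Finset.sum_nonneg fun i _ =>
    hEnn i _ (hT i k)) (ha k hk)
  set P := Fintype.piFinset S with hP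
  set N : ℝ := ∏ i, m i with hN
  set w : (I → Ω) → ℝ := fun x => ∏ j, p j (x j) with hw
  have hw0 : ∀ x, 0 ≤ w x := fun x => Finset.prod_nonneg fun j _ => hp0 j _
  have hNP : ∑ x ∈ P, w x = N := by
    rw [hP, hN, hw, ← Finset.prod_univ_sum]
  have hNpos : 0 < N := Finset.prod_pos fun i _ => hmp i
  have hros : ∀ k ∈ KK, ∑ x ∈ P, w x * (∑ i, T i k (x i)) ^ (l + 1) ≤
      N * (2 ^ (l + 1) * (∑ i, (∑ ω ∈ S i, p i ω * T i k ω ^ (l + 1)) / m i) +
        (2 ^ (l + 1) * (8 / 5 * a k)) ^ (l + 1)) := by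
    intro k hk
    refine wrosenthal l S p hp0 m (fun i => rfl) hmp (fun i => T i k) (fun i ω => hT i k ω) ?_
    refine (Finset.sum_le_sum fun i _ => hmean i k).trans ?_
    rw [← Finset.mul_sum]
    exact mul_le_mul_of_nonneg_left (ha k hk) (by norm_num)
  have hβ1 : ∀ i, (∑ k ∈ KK, ∑ ω ∈ S i, p i ω * T i k ω ^ (l + 1)) / m i ≤ β i := by
    intro i
    rw [div_le_iff₀ (hmp i), Finset.sum_comm]
    calc ∑ ω ∈ S i, ∑ k ∈ KK, p i ω * T i k ω ^ (l + 1) ≤ ∑ ω ∈ S i, p i ω * β i := by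
          refine Finset.sum_le_sum fun ω hω => ?_
          rw [← Finset.mul_sum]
          rw [hS, Finset.mem_filter] at hω
          exact mul_le_mul_of_nonneg_left (hβ i ω hω.1 hω.2) (hp0 i ω)
      _ = β i * m i := by rw [← Finset.sum_mul, mul_comm]
  have hβ0 : ∑ i, (∑ k ∈ KK, ∑ ω ∈ S i, p i ω * T i k ω ^ (l + 1)) / m i ≤ ∑ i, β i :=
    Finset.sum_le_sum fun i _ => hβ1 i
  have hβs : 0 ≤ ∑ i, β i := Finset.sum_nonneg fun i _ => le_trans (div_nonneg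
    (Finset.sum_nonneg fun k _ => Finset.sum_nonneg fun ω _ =>
      mul_nonneg (hp0 i ω) (pow_nonneg (hT i k ω) _)) (hmp i).le) (hβ1 i)
  have htot : ∑ x ∈ P, w x * ∑ k ∈ KK, (∑ i, T i k (x i)) ^ (l + 1) ≤
      N * (2 ^ ((l + 2) * (l + 1)) * (∑ k ∈ KK, a k ^ (l + 1) + ∑ i, β i)) := by
    have h0 : ∑ x ∈ P, w x * ∑ k ∈ KK, (∑ i, T i k (x i)) ^ (l + 1) =
        ∑ k ∈ KK, ∑ x ∈ P, w x * (∑ i, T i k (x i)) ^ (l + 1) := by
      rw [Finset.sum_comm]
      exact Finset.sum_congr rfl fun x _ => Finset.mul_sum _ _ _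
    rw [h0]
    refine (Finset.sum_le_sum hros).trans ?_
    rw [← Finset.mul_sum, Finset.sum_add_distrib, ← Finset.mul_sum]
    refine mul_le_mul_of_nonneg_left ?_ hNpos.le
    have h1 : ∑ k ∈ KK, ∑ i, (∑ ω ∈ S i, p i ω * T i k ω ^ (l + 1)) / m i ≤ ∑ i, β i := by
      rw [Finset.sum_comm]
      refine le_trans (le_of_eq (Finset.sum_congr rfl fun i _ => ?_)) hβ0
      rw [Finset.sum_div]
    have h2 : ∀ k ∈ KK, (2 ^ (l + 1) * (8 / 5 * a k)) ^ (l + 1) ≤
        2 ^ ((l + 2) * (l + 1)) * a k ^ (l + 1) := by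
      intro k hk
      have h3 : 2 ^ (l + 1) * (8 / 5 * a k) ≤ 2 ^ (l + 2) * a k := by
        rw [pow_succ (2 : ℝ) (l + 1)]
        have := mul_le_mul_of_nonneg_left (show (8 / 5 : ℝ) * a k ≤ 2 * a k by
          have := ha0 k hk; linarith) (show (0 : ℝ) ≤ 2 ^ (l + 1) by positivity)
        linarith
      calc (2 ^ (l + 1) * (8 / 5 * a k)) ^ (l + 1) ≤ (2 ^ (l + 2) * a k) ^ (l + 1) :=
            pow_le_pow_left₀ (by have := ha0 k hk; positivity) h3 _
        _ = 2 ^ ((l + 2) * (l + 1)) * a k ^ (l + 1) := by rw [mul_pow, ← pow_mul]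
    have h4 : ∑ k ∈ KK, (2 ^ (l + 1) * (8 / 5 * a k)) ^ (l + 1) ≤
        2 ^ ((l + 2) * (l + 1)) * ∑ k ∈ KK, a k ^ (l + 1) := by
      rw [Finset.mul_sum]
      exact Finset.sum_le_sum h2
    have h5 : (2 : ℝ) ^ (l + 1) ≤ 2 ^ ((l + 2) * (l + 1)) := by
      refine pow_le_pow_right₀ (by norm_num) ?_
      nlinarith
    have h6 : 2 ^ (l + 1) * ∑ k ∈ KK, ∑ i, (∑ ω ∈ S i, p i ω * T i k ω ^ (l + 1)) / m i ≤
        2 ^ ((l + 2) * (l + 1)) * ∑ i, β i := by
      calc 2 ^ (l + 1) * ∑ k ∈ KK, ∑ i, (∑ ω ∈ S i, p i ω * T i k ω ^ (l + 1)) / m i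
          ≤ 2 ^ (l + 1) * ∑ i, β i := mul_le_mul_of_nonneg_left h1 (by positivity)
        _ ≤ 2 ^ ((l + 2) * (l + 1)) * ∑ i, β i := mul_le_mul_of_nonneg_right h5 hβs
    rw [mul_add]
    linarith
  have hex : ∃ x ∈ P, ∑ k ∈ KK, (∑ i, T i k (x i)) ^ (l + 1) ≤
      2 ^ ((l + 2) * (l + 1)) * (∑ k ∈ KK, a k ^ (l + 1) + ∑ i, β i) := by
    by_contra hcon
    push Not at hcon
    set c := 2 ^ ((l + 2) * (l + 1)) * (∑ k ∈ KK, a k ^ (l + 1) + ∑ i, β i) with hc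
    have h1 : ∑ x ∈ P, w x * c < ∑ x ∈ P, w x * ∑ k ∈ KK, (∑ i, T i k (x i)) ^ (l + 1) := by
      refine Finset.sum_lt_sum (fun x hx => mul_le_mul_of_nonneg_left (hcon x hx).le (hw0 x)) ?_
      by_contra hno
      push Not at hno
      have h2 : ∑ x ∈ P, w x = 0 := by
        refine Finset.sum_eq_zero fun x hx => ?_
        by_contra hne
        have h3 : 0 < w x := lt_of_le_of_ne (hw0 x) (Ne.symm hne)
        have h4 := hno x hx
        have h5 := mul_lt_mul_of_pos_left (hcon x hx) h3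
        linarith
      rw [hNP] at h2
      linarith
    rw [← Finset.sum_mul, hNP] at h1
    linarith
  obtain ⟨x, hx, hx2⟩ := hex
  rw [hP, Fintype.mem_piFinset] at hx
  refine ⟨x, fun i => ?_, fun i => ?_, hx2⟩
  · have := hx i
    rw [hS, Finset.mem_filter] at this
    exact this.1
  · have := hx i
    rw [hS, Finset.mem_filter] at this
    exact this.2

/-- helper69's statement -/
theorem rounding' (lam : ℕ) (hlam : 1 ≤ lam) : ∃ C : ℝ, 1 ≤ C ∧
    ∀ {ι κ Ω : Type} (I : Finset ι) (K : Finset κ) (μ : ι → FP Ω) (T : ι → κ → Ω → ℝ)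
      (Z : ι → Fin 3 → Ω → ℝ) (a : κ → ℝ) (z : ι → Fin 3 → ℝ) (β : ι → ℝ),
      (∀ i k w, 0 ≤ T i k w) → (∀ i r w, 0 ≤ Z i r w) →
      (∀ k ∈ K, ∑ i ∈ I, (μ i).E (T i k) ≤ a k) →
      (∀ i ∈ I, ∀ r, (μ i).E (Z i r) ≤ z i r) →
      (∀ i ∈ I, ∀ w ∈ (μ i).S, (∀ r, Z i r w ≤ 8 * z i r) → ∑ k ∈ K, (T i k w) ^ lam ≤ β i) →
      ∃ w : ι → Ω, (∀ i, w i ∈ (μ i).S) ∧ (∀ i ∈ I, ∀ r, Z i r (w i) ≤ 8 * z i r) ∧
        ∑ k ∈ K, (∑ i ∈ I, T i k (w i)) ^ lam ≤ C * (∑ k ∈ K, (a k) ^ lam + ∑ i ∈ I, β i) := by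
  obtain ⟨l, rfl⟩ : ∃ l, lam = l + 1 := ⟨lam - 1, by omega⟩
  refine ⟨2 ^ ((l + 2) * (l + 1)), one_le_pow₀ (by norm_num), ?_⟩
  intro ι κ Ω I K μ T Z a z β hT hZ ha hz hβ
  have hne : ∀ i, ∃ w, w ∈ (μ i).S := by
    intro i
    by_contra hcon
    push Not at hcon
    have h1 := (μ i).one
    rw [Finset.sum_eq_zero fun w hw => absurd hw (hcon w)] at h1
    exact zero_ne_one h1
  choose w0 hw0 using hne
  obtain ⟨x, hx1, hx2, hx3⟩ := wrounding (I := {i // i ∈ I}) l K (fun i => μ i) (fun i => T i)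
    (fun i => Z i) a (fun i => z i) (fun i => β i) (fun i => hT i) (fun i => hZ i) (by
      intro k hk
      have h1 := ha k hk
      rwa [← Finset.sum_coe_sort I (fun i => (μ i).E (T i k))] at h1) (fun i => hz i i.2) (fun i => hβ i i.2)
  refine ⟨fun i => if h : i ∈ I then x ⟨i, h⟩ else w0 i, ?_, ?_, ?_⟩
  · intro i
    beta_reduce
    by_cases h : i ∈ I
    · rw [dif_pos h]; exact hx1 ⟨i, h⟩
    · rw [dif_neg h]; exact hw0 i
  · intro i hi r
    beta_reduce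
    rw [dif_pos hi]
    exact hx2 ⟨i, hi⟩ r
  · have h1 : ∀ k, ∑ i ∈ I, T i k (if h : i ∈ I then x ⟨i, h⟩ else w0 i) =
        ∑ i : {i // i ∈ I}, T i k (x i) := by
      intro k
      rw [← Finset.sum_coe_sort I]
      refine Finset.sum_congr rfl fun i _ => ?_
      rw [dif_pos i.2]
    simp only [h1]
    rw [← Finset.sum_coe_sort I β]
    exact hx3

end Pool.Agent.H50.FK
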